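import Pool.Agent.Helper18.SU.Goals3

/-! Packet CAS1 of MP_f2ad72_co. -/

set_option autoImplicit false

namespace Pool.Agent.Helper93.SU

open Pool.Agent.Helper18.SU

theorem CAS1 (h1 : CI1_stmt) (h2 : CI3_stmt) (h3 : IBG_stmt) (h4 : DST_stmt) (h5 : DSC_stmt)
    (h6 : SIZ_stmt) : CAS1_stmt := by
  classical
  intro W V _ _ _ _ A r par dep sgn K β m G g J hctx hqp hG hg hJ hn hgJ hmid
  have hT : Tour A := hctx.1
  have hV : Fintype.card V + 2 = 2 * Fintype.card W := hctx.2.2.2.2.2.2
  have hKm : K.card ≤ m := hctx.2.2.2.2.2.1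
  have hsum : K.card + mas par sgn K true + mas par sgn K false = Fintype.card W :=
    ((h5 W r par dep hctx.2.1).2.2.2.2.2.2 K hctx.2.2.1 hctx.2.2.2.1).2.2.2.2 sgn
  have hdeg := (h6 V A hT).2.2
  set n := Fintype.card W with hndef
  set p := mas par sgn K true with hp
  set q := mas par sgn K false with hq
  set M' := mid A (p + G) (q + G) with hM'
  have hδn : 3 * (34 * β + 2 * m + 14 * C0 + 12) ≤ n := by
    refine le_trans ?_ hn
    exact Nat.mul_le_mul_right _ (by omega)
  have hmem : ∀ x ∈ M', p + G ≤ (nb A true Finset.univ x).card ∧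
      q + G ≤ (nb A false Finset.univ x).card := by
    intro x hx
    simpa [hM', mid] using hx
  set H := 2 * β + C0 + 2 with hH
  set R1 := M'.filter (fun x => (nb A true Finset.univ x).card + H + 1 ≤ n) with hR1
  set R2 := M'.filter (fun x => (nb A false Finset.univ x).card + H + 1 ≤ n) with hR2
  set R3 := M'.filter (fun x => ¬ ((nb A true Finset.univ x).card + H + 1 ≤ n) ∧
    ¬ ((nb A false Finset.univ x).card + H + 1 ≤ n)) with hR3
  by_cases hc1 : 3 * m + C0 ≤ R1.card
  · refine h1 W V A r par dep sgn K β m hctx true R1 hc1 (fun x hx => ?_) fun x hx => ?_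
    · have := (hmem x (Finset.mem_filter.1 hx).1).1
      omega
    · have e1 := (Finset.mem_filter.1 hx).2
      have e2 := hdeg x
      simp only [Bool.not_true]
      omega
  by_cases hc2 : 3 * m + C0 ≤ R2.card
  · refine h1 W V A r par dep sgn K β m hctx false R2 hc2 (fun x hx => ?_) fun x hx => ?_
    · have := (hmem x (Finset.mem_filter.1 hx).1).2
      omega
    · have e1 := (Finset.mem_filter.1 hx).2
      have e2 := hdeg x
      simp only [Bool.not_false]
      omega
  have hcov : M'.card ≤ R1.card + R2.card + R3.card := by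
    have hsub : M' ⊆ R1 ∪ R2 ∪ R3 := by
      intro x hx
      by_cases e1 : (nb A true Finset.univ x).card + H + 1 ≤ n
      · exact Finset.mem_union_left _ (Finset.mem_union_left _ (Finset.mem_filter.2 ⟨hx, e1⟩))
      by_cases e2 : (nb A false Finset.univ x).card + H + 1 ≤ n
      · exact Finset.mem_union_left _ (Finset.mem_union_right _ (Finset.mem_filter.2 ⟨hx, e2⟩))
      · exact Finset.mem_union_right _ (Finset.mem_filter.2 ⟨hx, e1, e2⟩)
    exact (Finset.card_le_card hsub).trans
      ((Finset.card_union_le _ _).trans (Nat.add_le_add_right (Finset.card_union_le _ _) _))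
  have hR3c : (1 + g) * (3 * m + C0) ≤ R3.card := by
    have e : (3 + g) * (3 * m + C0) = (1 + g) * (3 * m + C0) + 2 * (3 * m + C0) := by ring
    omega
  have hR3c' : 3 * m + C0 ≤ R3.card :=
    le_trans (Nat.le_mul_of_pos_left _ (by omega)) hR3c
  have hR3d : ∀ x ∈ R3, x ∈ M' ∧ n ≤ (nb A true Finset.univ x).card + H ∧
      n ≤ (nb A false Finset.univ x).card + H := by
    intro x hx
    obtain ⟨e1, e2, e3⟩ := Finset.mem_filter.1 hx
    refine ⟨e1, ?_, ?_⟩ <;> omega
  by_cases hq11 : q ≤ 4 * β + 2 * C0 + 1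
  · refine h1 W V A r par dep sgn K β m hctx false R3 hR3c' (fun x hx => ?_) fun x hx => ?_
    · have := (hmem x (hR3d x hx).1).2
      omega
    · have := (hmem x (hR3d x hx).1).1
      simp only [Bool.not_false]
      omega
  obtain ⟨d1, d2, d3, d4, d5, -⟩ := h4 V A Finset.univ
  obtain ⟨X, hXR, hXc, hX⟩ := h3 V (dst A Finset.univ) (Fintype.card V)
    (34 * β + 2 * m + 14 * C0 + 12) g J (3 * m + C0) R3 d1 d2 d3
    (by simpa [Finset.card_univ] using d4) hg hJ
    (by
      have : R3.card ≤ Fintype.card V := Finset.card_le_univ _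
      omega)
    (by
      have e : 2 * J * (34 * β + 2 * m + 14 * C0 + 12) + (34 * β + 2 * m + 14 * C0 + 12) =
        (2 * J + 1) * (34 * β + 2 * m + 14 * C0 + 12) := by ring
      omega) hR3c
  refine h2 W V A r par dep sgn K β m hctx X H (2 * H + 11 * β + 4 * C0) hXc
    (fun x hx d => ?_) (fun x hx y hy hxy => ?_) (by omega) (by omega) (by omega) le_rfl
  · have := hR3d x (hXR hx)
    cases d
    · exact this.2.2
    · exact this.2.1
  · have e1 := hX x hx y hy
    have e2 := d5 x y
    have e3 := (hR3d x (hXR hx)).2.1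
    have e4 := (hR3d y (hXR hy)).2.1
    omega

end Pool.Agent.Helper93.SU
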