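import Pool.Agent.Helper18.SU.Goals2

/-! Packet C1 of MP_f2ad72_co. -/

set_option autoImplicit false

namespace Pool.Agent.Helper93.SU

open Pool.Agent.Helper18.SU

theorem num_drc (n N β μ m t τ a : ℕ) (hN : N + 2 = 2 * n)
    (hn : 1000000000000 * β ≤ n) (ht : 8 * n ^ 2 ≤ 2 ^ (13 * t)) (hμ : 2 * μ * 4 ^ t ≤ β)
    (hτ : τ + m ≤ 24 * β) (ha : a + 4 * β = n) :
    μ * N ^ t + β ^ 3 * (τ + m) ^ t ≤ β * a ^ t := by
  have h1 : N ≤ 4 * a := by omega
  have h2 : 8192 * (τ + m) ≤ a := by omega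
  have i1 : 2 * (μ * N ^ t) ≤ β * a ^ t := by
    calc 2 * (μ * N ^ t) ≤ 2 * (μ * (4 * a) ^ t) := by gcongr
      _ = (2 * μ * 4 ^ t) * a ^ t := by rw [mul_pow]; ring
      _ ≤ β * a ^ t := by gcongr
  have i2 : 2 * (β ^ 3 * (τ + m) ^ t) ≤ β * a ^ t := by
    have hβn : β ≤ n := by omega
    calc 2 * (β ^ 3 * (τ + m) ^ t) = β * ((2 * β ^ 2) * (τ + m) ^ t) := by ring
      _ ≤ β * ((8 * n ^ 2) * (τ + m) ^ t) := by gcongr; norm_num
      _ ≤ β * (2 ^ (13 * t) * (τ + m) ^ t) := by gcongr
      _ = β * (8192 * (τ + m)) ^ t := by rw [mul_pow, pow_mul]; norm_num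
      _ ≤ β * a ^ t := by gcongr
  omega

theorem C1 (h1 : CI1_stmt) (h2 : CI3_stmt) (h3 : DRC_stmt) (h4 : DSC_stmt) (h5 : SIZ_stmt) :
    C1_stmt := by
  classical
  intro W V _ _ _ _ A r par dep sgn K β m t hctx hC0 hm hn ht hμ hmid
  have hT : Tour A := hctx.1
  have hV : Fintype.card V + 2 = 2 * Fintype.card W := hctx.2.2.2.2.2.2
  have hKm : K.card ≤ m := hctx.2.2.2.2.2.1
  have hsum : K.card + mas par sgn K true + mas par sgn K false = Fintype.card W :=
    ((h4 W r par dep hctx.2.1).2.2.2.2.2.2 K hctx.2.2.1 hctx.2.2.2.1).2.2.2.2 sgn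
  have hdeg := (h5 V A hT).2.2
  set n := Fintype.card W with hndef
  set p := mas par sgn K true with hp
  set q := mas par sgn K false with hq
  set M' := mid A (p + 16 * β) (q + 16 * β) with hM'
  have hC2 : (2 : ℕ) ≤ C0 := by norm_num [C0]
  have h4t : 1 ≤ 4 ^ t := Nat.one_le_pow _ _ (by norm_num)
  have hμβ : 2 * (3 * m + C0) ≤ β := le_trans (Nat.le_mul_of_pos_right _ h4t) hμ
  have hmem : ∀ x ∈ M', p + 16 * β ≤ (nb A true Finset.univ x).card ∧
      q + 16 * β ≤ (nb A false Finset.univ x).card := by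
    intro x hx
    simpa [hM', mid] using hx
  set R1 := M'.filter (fun x => (nb A true Finset.univ x).card + 4 * β + 1 ≤ n) with hR1
  set R2 := M'.filter (fun x => (nb A false Finset.univ x).card + 4 * β + 1 ≤ n) with hR2
  set R3 := M'.filter (fun x => ¬ ((nb A true Finset.univ x).card + 4 * β + 1 ≤ n) ∧
    ¬ ((nb A false Finset.univ x).card + 4 * β + 1 ≤ n)) with hR3
  by_cases hc1 : 3 * m + C0 ≤ R1.card
  · refine h1 W V A r par dep sgn K β m hctx true R1 hc1 (fun x hx => ?_) fun x hx => ?_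
    · have := (hmem x (Finset.mem_filter.1 hx).1).1
      omega
    · have e1 := (Finset.mem_filter.1 hx).2
      have e2 := hdeg x
      simp only [Bool.not_true]
      omega
  by_cases hc2 : 3 * m + C0 ≤ R2.card
  · refine h1 W V A r par dep sgn K β m hctx false R2 hc2 (fun x hx => ?_) fun x hx => ?_
    · have := (hmem x (Finset.mem_filter.1 hx).1).2
      omega
    · have e1 := (Finset.mem_filter.1 hx).2
      have e2 := hdeg x
      simp only [Bool.not_false]
      omega
  have hcov : M'.card ≤ R1.card + R2.card + R3.card := by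
    have hsub : M' ⊆ R1 ∪ R2 ∪ R3 := by
      intro x hx
      by_cases e1 : (nb A true Finset.univ x).card + 4 * β + 1 ≤ n
      · exact Finset.mem_union_left _ (Finset.mem_union_left _ (Finset.mem_filter.2 ⟨hx, e1⟩))
      by_cases e2 : (nb A false Finset.univ x).card + 4 * β + 1 ≤ n
      · exact Finset.mem_union_left _ (Finset.mem_union_right _ (Finset.mem_filter.2 ⟨hx, e2⟩))
      · exact Finset.mem_union_right _ (Finset.mem_filter.2 ⟨hx, e1, e2⟩)
    exact (Finset.card_le_card hsub).trans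
      ((Finset.card_union_le _ _).trans (Nat.add_le_add_right (Finset.card_union_le _ _) _))
  have hR3c : β ≤ R3.card := by omega
  have hR3d : ∀ x ∈ R3, x ∈ M' ∧ n ≤ (nb A true Finset.univ x).card + 4 * β ∧
      n ≤ (nb A false Finset.univ x).card + 4 * β := by
    intro x hx
    obtain ⟨e1, e2, e3⟩ := Finset.mem_filter.1 hx
    refine ⟨e1, ?_, ?_⟩ <;> omega
  by_cases hq11 : q ≤ 11 * β
  · refine h1 W V A r par dep sgn K β m hctx false R3 (by omega) (fun x hx => ?_) fun x hx => ?_
    · have := (hmem x (hR3d x hx).1).2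
      omega
    · have := (hmem x (hR3d x hx).1).1
      simp only [Bool.not_false]
      omega
  by_cases hp11 : p ≤ 11 * β
  · refine h1 W V A r par dep sgn K β m hctx true R3 (by omega) (fun x hx => ?_) fun x hx => ?_
    · have := (hmem x (hR3d x hx).1).1
      omega
    · have := (hmem x (hR3d x hx).1).2
      simp only [Bool.not_true]
      omega
  obtain ⟨M, hMR, hMc⟩ := Finset.exists_subset_card_eq hR3c
  have hMne : M.Nonempty := by
    rw [← Finset.card_pos, hMc]
    omega
  obtain ⟨X, hXM, hXc, hX⟩ := h3 V A true M (3 * m + C0) (n - 4 * β)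
    (2 * (4 * β) + 11 * β + 4 * C0 + m) t hMne (by omega) (fun x hx => by
      have := (hR3d x (hMR hx)).2.1
      omega) (by
      rw [hMc]
      exact num_drc n _ β _ m t (2 * (4 * β) + 11 * β + 4 * C0) _ hV hn ht
        (by omega) (by omega) (by omega))
  refine h2 W V A r par dep sgn K β m hctx X (4 * β) (2 * (4 * β) + 11 * β + 4 * C0) hXc
    (fun x hx d => ?_) hX (by omega) (by omega) (by omega) le_rfl
  have := hR3d x (hMR (hXM hx))
  cases d
  · exact this.2.2
  · exact this.2.1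

end Pool.Agent.Helper93.SU
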